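import Pool.Agent.X146.Cap.Circ

/-!
# MP_61130f_an: the geodesic map of the capped cylinder is integrable only for circles

Definitions. `StrictlyConvexCurve γ L`, `PhaseCylinder L = ℝ/Lℤ × (0, π)`, `Chord`, `IsBilliardMap`,
`cylinderMap L d : (s, α) ↦ (s + d cot α, α)` and `IsRotationalInvariantCurve` (a simple closed
non-contractible curve `Γ` with `T(Γ) = Γ`) are in `Pool/Agent/H738R2/CylStmt.lean`. The curve is of
class `C^∞` and strictly convex; its curvature may vanish at some points. The definitions of
integrability are in `Pool/Agent/X146/Cap/Def.lean`:

* `IsIntegrable T`: there is a homeomorphism `Φ` from `S¹ × ℝ` onto the phase cylinder such that all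
  the curves `Φ (S¹ × {t})` are closed non-contractible `T`-invariant curves;
* `IsIntegrableNearBoundary T`: the same for an open embedding `Φ` the image of which contains
  `{α < ε}` for some `ε > 0`;
* `HasInvariantGraphsNearBoundary T`: for some `ε > 0` every point with `α < ε` lies on a
  `T`-invariant graph of a continuous function of `s`.

## Outline of the proof

For a chord of length tending to `0` from `γ s` the angles `α`, `α₁` at its ends satisfy
`α₁ - α ∼ κ'(s) σ² / 6`, where `σ` is the length of the arc (`sign_pos`, `sign_neg`). Assume that the
curvature `κ` is not constant; then `κ'(b) > 0 > κ'(c)` for some `b < c`. Let `k` be a large integer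
and consider, on the rectangle of the chords from `γ s` to `γ (s + σ)`, `s ∈ [b, c]`,
`σ ∈ [σ₁, σ₀]`, `σ₁` very small, the displacement of the lift of `T` composed with the translation by
`- k L`. Its `s`-component is `σ + d cot α₁ - k L`, which is positive for `σ = σ₁` and negative for
`σ = σ₀`; its `α`-component `α₁ - α` is positive for `s = b` and negative for `s = c`. So this map,
`S`, has fixed points of index `± 1` in the rectangle. But `S` preserves the leaves of the foliation,
on the boundary of the rectangle it moves all points in the same direction along their leaves, and
moving the points along the leaves by a positive amount, equal to that of `S` on the boundary of the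
rectangle, gives a displacement without zeros and with the boundary values of the one of `S`, in
contradiction to the theorem of Poincaré and Miranda (`Dat.index_zero`).
-/

set_option autoImplicit false

namespace Pool.Agent.Results.MP_61130f_an.OnlyCircles

open Pool.Agent.H738R2.Cyl Pool.Agent.X146.Cap

/-- Let `γ` be the arc length parametrisation of a `C^∞` strictly convex closed curve of length `L`
and `d > 0`. The billiard map `T₁` of `γ` exists and is unique, and for the map `T = T₂ ∘ T₁` of the
cylinder of height `d` over `γ` with two flat caps the following are equivalent:

1. `T` is integrable: the phase cylinder is foliated by closed non-contractible invariant curves;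
2. a neighbourhood of the boundary component `{α = 0}` of the phase cylinder is foliated by such
   curves;
3. every point of some neighbourhood of `{α = 0}` lies on an invariant graph;
4. `γ` is a circle. -/
theorem result (γ : ℝ → ℂ) (L d : ℝ) (hγ : StrictlyConvexCurve γ L) (hd : 0 < d) :
    (∃! T₁ : PhaseCylinder L → PhaseCylinder L, IsBilliardMap γ L T₁) ∧
    ∀ T₁ : PhaseCylinder L → PhaseCylinder L, IsBilliardMap γ L T₁ →
      List.TFAE [IsIntegrable (cylinderMap L d ∘ T₁),
        IsIntegrableNearBoundary (cylinderMap L d ∘ T₁),
        HasInvariantGraphsNearBoundary (cylinderMap L d ∘ T₁),
        ∃ (p : ℂ) (r : ℝ), 0 < r ∧ Set.range γ = Metric.sphere p r] :=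
  main hγ d hd

end Pool.Agent.Results.MP_61130f_an.OnlyCircles
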